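import Mathlib

/-! termwise divisibility -/

set_option autoImplicit false
set_option linter.unusedVariables false

namespace Pool.Agent.N926.Cb

open Finset

/-- the floor inequality -/
theorem floor_ineq {a b e f : ℕ} (h1 : 6*e + b ≤ 2*a+1) (h2 : 6*f + a ≤ b) :
    2*(a/6) + a/2 + b/2 + e + f ≤ a + b/6 + b/3 := by omega

theorem floor_ineq' {a b e f : ℕ} (h1 : 6*e + b ≤ 2*a+1) (h2 : 6*f + a ≤ b) (h3 : b % 6 = 3) :
    1 + 2*(a/6) + a/2 + b/2 + e + f ≤ a + b/6 + b/3 := by omega

theorem div6 (x q : ℕ) : 6*x/q/6 = x/q := by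
  rw [Nat.div_div_eq_div_mul, mul_comm q 6, Nat.mul_div_mul_left _ _ (by norm_num)]

theorem div3 (x q : ℕ) : 6*x/q/3 = 2*x/q := by
  rw [Nat.div_div_eq_div_mul, mul_comm q 3, show 6*x = 3*(2*x) by ring, Nat.mul_div_mul_left _ _ (by norm_num)]

theorem div2 (x q : ℕ) : 6*x/q/2 = 3*x/q := by
  rw [Nat.div_div_eq_div_mul, mul_comm q 2, show 6*x = 2*(3*x) by ring, Nat.mul_div_mul_left _ _ (by norm_num)]

section
variable {m d q : ℕ}

theorem c1 (hq : 0 < q) : 6*(m/q) + 6*(m+2*d)/q ≤ 2*(6*(m+d)/q)+1 := by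
  have h1 := Nat.div_mul_le_self m q
  have h2 := Nat.div_mul_le_self (6*(m+2*d)) q
  have h3 := Nat.lt_div_mul_add (a := 6*(m+d)) hq
  by_contra hc
  push Not at hc
  have h4 : (2*(6*(m+d)/q)+2) * q ≤ (6*(m/q) + 6*(m+2*d)/q) * q := Nat.mul_le_mul_right _ hc
  nlinarith

theorem c2 (hq : 0 < q) : 6*(d/q) + 6*(m+d)/q ≤ 6*(m+2*d)/q := by
  have h1 := Nat.div_mul_le_self d q
  have h2 := Nat.div_mul_le_self (6*(m+d)) q
  rw [Nat.le_div_iff_mul_le hq]
  nlinarith

theorem lvl (hq : 0 < q) : 2*((m+d)/q) + 3*(m+d)/q + 3*(m+2*d)/q + m/q + d/q ≤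
    6*(m+d)/q + (m+2*d)/q + 2*(m+2*d)/q := by
  have := floor_ineq (c1 (m := m) (d := d) hq) (c2 (m := m) (d := d) hq)
  rw [div6, div2, div2, div6, div3] at this
  exact this

theorem mod6 (hq : 3 < q) {n : ℕ} (hn : 1 ≤ n) (hd : q ∣ 2*n-1) : (6*n/q) % 6 = 3 := by
  obtain ⟨c, hc⟩ := hd
  have hodd : c % 2 = 1 := by
    by_contra h
    have h0 : c % 2 = 0 := by omega
    have : (q*c) % 2 = 0 := by rw [Nat.mul_mod, h0]; simp
    omega
  have h1 : 6*n = q*(3*c) + 3 := by
    have : q*(3*c) = 3*(q*c) := by ring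
    omega
  rw [h1, Nat.mul_add_div (by omega), Nat.div_eq_of_lt hq]
  omega

theorem lvl' (hq : 3 < q) (hn : 1 ≤ m+2*d) :
    (if q ∣ 2*(m+2*d)-1 then 1 else 0) + (2*((m+d)/q) + 3*(m+d)/q + 3*(m+2*d)/q + m/q + d/q) ≤
    6*(m+d)/q + (m+2*d)/q + 2*(m+2*d)/q := by
  split_ifs with h
  · have := floor_ineq' (c1 (m := m) (d := d) (by omega)) (c2 (m := m) (d := d) (by omega)) (mod6 hq hn h)
    rw [div6, div2, div2, div6, div3] at this
    omega
  · rw [zero_add]; exact lvl (by omega)

theorem lvl3 (hn : 1 ≤ m+2*d) :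
    (if 3 ∣ 2*(m+2*d)-1 then 1 else 0) + (2*((m+d)/3) + 3*(m+d)/3 + 3*(m+2*d)/3 + m/3 + d/3) ≤
    6*(m+d)/3 + (m+2*d)/3 + 2*(m+2*d)/3 + 3*d := by
  have h := lvl (m := m) (d := d) (q := 3) (by norm_num)
  by_cases hd : d = 0
  · subst hd
    split_ifs with h3
    · omega
    · omega
  · split_ifs <;> omega

end

/-- the indicator through factorials -/
theorem val_ind (p : ℕ) [hp : Fact p.Prime] {n b : ℕ} (hn : 1 ≤ n) (hb : Nat.log p (2*n-1) < b) :
    padicValNat p (2*n-1) = ∑ i ∈ Ico 1 b, if p^i ∣ 2*n-1 then 1 else 0 := by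
  obtain ⟨k, hk⟩ : ∃ k, 2*n-1 = k+1 := ⟨2*n-2, by omega⟩
  rw [hk] at hb ⊢
  have h1 := padicValNat_factorial (p := p) (n := k+1) hb
  have h2 := padicValNat_factorial (p := p) (n := k) (lt_of_le_of_lt (Nat.log_mono_right (by omega)) hb)
  rw [Nat.factorial_succ, padicValNat.mul (by omega) (Nat.factorial_ne_zero k), h2] at h1
  have h3 : ∑ i ∈ Ico 1 b, (k+1)/p^i = ∑ i ∈ Ico 1 b, k/p^i + ∑ i ∈ Ico 1 b, (if p^i ∣ k+1 then 1 else 0) := by
    rw [← sum_add_distrib]
    exact sum_congr rfl fun i _ => Nat.succ_div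
  rw [h3] at h1
  omega

/-- `2`-adic facts -/
theorem v2_even (N : ℕ) : padicValNat 2 (2*N).factorial = padicValNat 2 N.factorial + N :=
  padicValNat_factorial_mul (p := 2) N

theorem v2_three (n : ℕ) (hn : 1 ≤ n) : padicValNat 2 (3*n).factorial + 2 ≤ 3*n := by
  induction n using Nat.strong_induction_on with
  | _ n ih =>
    rcases Nat.even_or_odd' n with ⟨k, hk | hk⟩
    · have h1 := ih k (by omega) (by omega)
      rw [show 3*n = 2*(3*k) by omega, v2_even]
      omega
    · have h2 := padicValNat_factorial_mul_add (p := 2) (n := 1) (3*k+1) (by norm_num)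
      rw [show 3*n = 2*(3*k+1)+1 by omega, h2, v2_even]
      have h3 := padicValNat_factorial_lt_of_ne_zero 2 (n := 3*k+1) (by omega)
      omega

/-- `C(2j,j) C(6j,3j) C(3j,j) C(j,d)` -/
def X (m d : ℕ) : ℕ := (2*(m+d)).choose (m+d) * ((6*(m+d)).choose (3*(m+d)) * (3*(m+d)).choose (m+d)) * (m+d).choose d

theorem X_fact (m d : ℕ) : X m d * ((m+d).factorial * (m+d).factorial * (3*(m+d)).factorial * d.factorial * m.factorial) =
    (6*(m+d)).factorial := by
  unfold X
  have h1 := Nat.choose_mul_factorial_mul_factorial (n := 2*(m+d)) (k := m+d) (by omega)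
  have h2 := Nat.choose_mul_factorial_mul_factorial (n := 6*(m+d)) (k := 3*(m+d)) (by omega)
  have h3 := Nat.choose_mul_factorial_mul_factorial (n := 3*(m+d)) (k := m+d) (by omega)
  have h4 := Nat.choose_mul_factorial_mul_factorial (n := m+d) (k := d) (by omega)
  rw [show 2*(m+d)-(m+d) = m+d by omega] at h1
  rw [show 6*(m+d)-3*(m+d) = 3*(m+d) by omega] at h2
  rw [show 3*(m+d)-(m+d) = 2*(m+d) by omega] at h3
  rw [show m+d-d = m by omega] at h4
  rw [← h2]
  generalize (2*(m+d)).choose (m+d) = x1 at *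
  generalize (6*(m+d)).choose (3*(m+d)) = x2 at *
  generalize (3*(m+d)).choose (m+d) = x3 at *
  generalize (m+d).choose d = x4 at *
  calc x1 * (x2 * x3) * x4 * ((m+d).factorial * (m+d).factorial * (3*(m+d)).factorial * d.factorial * m.factorial)
      = x2 * (3*(m+d)).factorial * (x3 * (m+d).factorial * (x1 * (x4 * d.factorial * m.factorial) * (m+d).factorial)) := by ring
    _ = x2 * (3*(m+d)).factorial * (3*(m+d)).factorial := by rw [h4, h1, h3]

theorem X_ne (m d : ℕ) : X m d ≠ 0 := by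
  intro h
  have := X_fact m d
  rw [h, zero_mul] at this
  exact absurd this.symm (Nat.factorial_ne_zero _)

theorem term_dvd {m d : ℕ} (hn : 1 ≤ m+2*d) :
    8*(2*(m+2*d)-1)*(3*(m+2*d)).choose (m+2*d) ∣ X m d * 432^d := by
  have hc := Nat.choose_mul_factorial_mul_factorial (n := 3*(m+2*d)) (k := m+2*d) (by omega)
  rw [show 3*(m+2*d)-(m+2*d) = 2*(m+2*d) by omega] at hc
  have hC0 : (3*(m+2*d)).choose (m+2*d) ≠ 0 := (Nat.choose_pos (by omega)).ne'
  have h21 : 2*(m+2*d)-1 ≠ 0 := by omega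
  have hX0 := X_ne m d
  have hXf := X_fact m d
  rw [← Nat.factorization_prime_le_iff_dvd (mul_ne_zero (mul_ne_zero (by norm_num) h21) hC0)
    (mul_ne_zero hX0 (by positivity))]
  intro p pp
  haveI : Fact p.Prime := ⟨pp⟩
  rw [Nat.factorization_def _ pp, Nat.factorization_def _ pp]
  rw [padicValNat.mul (mul_ne_zero (by norm_num) h21) hC0, padicValNat.mul (by norm_num) h21,
    padicValNat.mul hX0 (by positivity), padicValNat.pow]
  have fne : ∀ k : ℕ, k.factorial ≠ 0 := Nat.factorial_ne_zero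
  -- valuations of the factorial identities
  have e1 := congrArg (padicValNat p) hXf
  rw [padicValNat.mul hX0 (by positivity), padicValNat.mul (by positivity) (fne m),
    padicValNat.mul (by positivity) (fne d), padicValNat.mul (by positivity) (fne _),
    padicValNat.mul (fne _) (fne _)] at e1
  have e2 := congrArg (padicValNat p) hc
  rw [padicValNat.mul (mul_ne_zero hC0 (fne _)) (fne _), padicValNat.mul hC0 (fne _)] at e2
  -- Legendre
  set b := Nat.log p (6*(m+2*d)) + 1 with hb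
  have L : ∀ k : ℕ, k ≤ 6*(m+2*d) → padicValNat p k.factorial = ∑ i ∈ Ico 1 b, k / p^i := fun k hk =>
    padicValNat_factorial (lt_of_le_of_lt (Nat.log_mono_right hk) (Nat.lt_succ_self _))
  have I := val_ind p (n := m+2*d) (b := b) hn (lt_of_le_of_lt (Nat.log_mono_right (by omega)) (Nat.lt_succ_self _))
  have ineq : (∑ i ∈ Ico 1 b, if p^i ∣ 2*(m+2*d)-1 then 1 else 0) +
      (2 * (∑ i ∈ Ico 1 b, (m+d)/p^i) + (∑ i ∈ Ico 1 b, 3*(m+d)/p^i) + (∑ i ∈ Ico 1 b, 3*(m+2*d)/p^i) +
        (∑ i ∈ Ico 1 b, m/p^i) + (∑ i ∈ Ico 1 b, d/p^i)) ≤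
      (∑ i ∈ Ico 1 b, 6*(m+d)/p^i) + (∑ i ∈ Ico 1 b, (m+2*d)/p^i) + (∑ i ∈ Ico 1 b, 2*(m+2*d)/p^i) +
        (if p = 3 then 3*d else 0) := by
    have hlast : (if p = 3 then 3*d else 0) = ∑ i ∈ Ico 1 b, (if i = 1 then (if p = 3 then 3*d else 0) else 0) ∨ (b ≤ 1) := by
      by_cases hb1 : b ≤ 1
      · exact Or.inr hb1
      · left
        rw [sum_ite_eq' , if_pos (mem_Ico.2 ⟨le_refl _, by omega⟩)]
    rcases hlast with hlast | hb1
    · rw [hlast, mul_sum, ← sum_add_distrib, ← sum_add_distrib, ← sum_add_distrib, ← sum_add_distrib, ← sum_add_distrib,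
        ← sum_add_distrib, ← sum_add_distrib, ← sum_add_distrib]
      refine sum_le_sum fun i hi => ?_
      rw [mem_Ico] at hi
      have hp2 := pp.two_le
      by_cases h3 : p = 3
      · subst h3
        by_cases hi1 : i = 1
        · subst hi1
          rw [if_pos rfl, if_pos rfl, pow_one]
          exact lvl3 hn
        · rw [if_neg hi1, add_zero]
          refine lvl' ?_ hn
          calc 3 < 3^2 := by norm_num
            _ ≤ 3^i := Nat.pow_le_pow_right (by norm_num) (by omega)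
      · rw [if_neg h3, ite_self, add_zero]
        by_cases h2 : p = 2
        · subst h2
          have : ¬ 2^i ∣ 2*(m+2*d)-1 := by
            intro h
            have h4 : 2 ∣ 2*(m+2*d)-1 := (dvd_pow_self 2 (by omega)).trans h
            omega
          rw [if_neg this, zero_add]
          exact lvl (by positivity)
        · refine lvl' ?_ hn
          calc 3 < p := by omega
            _ = p^1 := (pow_one p).symm
            _ ≤ p^i := Nat.pow_le_pow_right (by omega) hi.1
    · have : Ico 1 b = ∅ := Ico_eq_empty (by omega)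
      rw [this]
      simp
  rw [← I, ← L _ (by omega), ← L _ (by omega), ← L _ (by omega), ← L _ (by omega), ← L _ (by omega), ← L _ (by omega),
    ← L _ (by omega), ← L _ (by omega)] at ineq
  -- the constants
  by_cases h2 : p = 2
  · subst h2
    have v8 : padicValNat 2 8 = 3 := by
      rw [show (8:ℕ) = 2^3 by norm_num, padicValNat.prime_pow]
    have v432 : padicValNat 2 432 = 4 := by
      rw [show (432:ℕ) = 2^4 * 27 by norm_num, padicValNat.mul (by norm_num) (by norm_num), padicValNat.prime_pow,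
        padicValNat.eq_zero_of_not_dvd (by norm_num)]
    rw [v8, v432]
    rw [if_neg (by norm_num)] at ineq
    by_cases hd : d = 0
    · subst hd
      simp only [mul_zero, add_zero, Nat.factorial_zero, padicValNat_one_right] at *
      have a1 := v2_even (3*m)
      rw [show 2*(3*m) = 6*m by ring] at a1
      have a2 := v2_even m
      have a3 := v2_three m hn
      have a4 := padicValNat_factorial_lt_of_ne_zero 2 (n := m) (by omega)
      have a5 : padicValNat 2 (2*m-1) = 0 := padicValNat.eq_zero_of_not_dvd (by omega)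
      omega
    · have : 1 ≤ d := by omega
      omega
  · have v8 : padicValNat p 8 = 0 := by
      apply padicValNat.eq_zero_of_not_dvd
      intro h
      have : p ∣ 2^3 := h
      exact h2 ((Nat.prime_dvd_prime_iff_eq pp Nat.prime_two).1 (pp.dvd_of_dvd_pow this))
    rw [v8]
    by_cases h3 : p = 3
    · subst h3
      have v432 : padicValNat 3 432 = 3 := by
        rw [show (432:ℕ) = 3^3 * 16 by norm_num, padicValNat.mul (by norm_num) (by norm_num), padicValNat.prime_pow,
          padicValNat.eq_zero_of_not_dvd (by norm_num)]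
      rw [v432]
      rw [if_pos rfl] at ineq
      omega
    · rw [if_neg h3] at ineq
      omega

end Pool.Agent.N926.Cb
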