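import Mathlib

/-! the convolution identity -/

set_option autoImplicit false
set_option linter.unusedVariables false

namespace Pool.Agent.N926.Cb

open Finset

/-- `C(6k,3k) C(3k,k)` -/
def a (k : ℕ) : ℕ := (6*k).choose (3*k) * (3*k).choose k

theorem a_fact (k : ℕ) : a k * ((3*k).factorial * (2*k).factorial * k.factorial) = (6*k).factorial := by
  unfold a
  have h2 := Nat.choose_mul_factorial_mul_factorial (n := 6*k) (k := 3*k) (by omega)
  have h3 := Nat.choose_mul_factorial_mul_factorial (n := 3*k) (k := k) (by omega)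
  rw [show 6*k-3*k = 3*k by omega] at h2
  rw [show 3*k-k = 2*k by omega] at h3
  rw [← h2]
  have e : (6*k).choose (3*k) * (3*k).choose k * ((3*k).factorial * (2*k).factorial * k.factorial) =
    (6*k).choose (3*k) * (3*k).factorial * ((3*k).choose k * k.factorial * (2*k).factorial) := by ring
  rw [e, h3]

theorem a_succ (k : ℕ) : ((k:ℚ)+1)^2 * (a (k+1) : ℚ) = 12*(36*(k:ℚ)^2+36*k+5) * (a k : ℚ) := by
  have h1 := a_fact k
  have h2 := a_fact (k+1)
  have e6 : (6*(k+1)).factorial = (6*k+6)*((6*k+5)*((6*k+4)*((6*k+3)*((6*k+2)*((6*k+1)*(6*k).factorial))))) := by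
    rw [show 6*(k+1) = 6*k+5+1 by ring, Nat.factorial_succ, Nat.factorial_succ, Nat.factorial_succ,
      Nat.factorial_succ, Nat.factorial_succ, Nat.factorial_succ]
  have e3 : (3*(k+1)).factorial = (3*k+3)*((3*k+2)*((3*k+1)*(3*k).factorial)) := by
    rw [show 3*(k+1) = 3*k+2+1 by ring, Nat.factorial_succ, Nat.factorial_succ, Nat.factorial_succ]
  have e2 : (2*(k+1)).factorial = (2*k+2)*((2*k+1)*(2*k).factorial) := by
    rw [show 2*(k+1) = 2*k+1+1 by ring, Nat.factorial_succ, Nat.factorial_succ]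
  rw [e6, e3, e2, Nat.factorial_succ, ← h1] at h2
  have h3 := congrArg (fun z : ℕ => (z:ℚ)) h2
  push_cast at h3
  have f3 : ((3*k).factorial : ℚ) ≠ 0 := by positivity
  have f2 : ((2*k).factorial : ℚ) ≠ 0 := by positivity
  have f1 : (k.factorial : ℚ) ≠ 0 := by positivity
  have hne : ((3*(k:ℚ)+3)*(3*k+2)*(3*k+1)*(2*k+2)*(2*k+1)*(k+1))*(((3*k).factorial : ℚ)*(2*k).factorial*k.factorial) ≠ 0 := by positivity
  refine mul_left_cancel₀ hne ?_
  linear_combination ((k:ℚ)+1)^2 * h3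

/-- moments of the convolution -/
def M (f : ℕ → ℕ → ℚ) (n : ℕ) : ℚ := ∑ x ∈ antidiagonal n, f x.1 x.2 * ((a x.1 : ℚ) * (a x.2 : ℚ))

theorem M_swap (f : ℕ → ℕ → ℚ) (n : ℕ) : M f n = M (fun i j => f j i) n := by
  unfold M
  rw [← Nat.sum_antidiagonal_swap]
  refine sum_congr rfl fun x _ => ?_
  simp only [Prod.fst_swap, Prod.snd_swap]
  ring

theorem M_congr {f g : ℕ → ℕ → ℚ} {n : ℕ} (h : ∀ i j, i + j = n → f i j = g i j) : M f n = M g n := by
  unfold M
  refine sum_congr rfl fun x hx => ?_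
  rw [HasAntidiagonal.mem_antidiagonal] at hx
  rw [h _ _ hx]

theorem M_lin (f g : ℕ → ℕ → ℚ) (c d : ℚ) (n : ℕ) : M (fun i j => c * f i j + d * g i j) n = c * M f n + d * M g n := by
  unfold M
  rw [mul_sum, mul_sum, ← sum_add_distrib]
  refine sum_congr rfl fun x _ => ?_
  ring

theorem M_shift (g : ℕ → ℚ) (n : ℕ) :
    M (fun i j => (i:ℚ)^2 * g j) (n+1) = M (fun i j => 12*(36*(i:ℚ)^2+36*i+5) * g j) n := by
  unfold M
  rw [Nat.sum_antidiagonal_succ]
  simp only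
  rw [Nat.cast_zero]
  have : ∀ x ∈ antidiagonal n, (((x.1+1 : ℕ):ℚ))^2 * g x.2 * ((a (x.1+1) : ℚ) * (a x.2 : ℚ)) =
      12*(36*(x.1:ℚ)^2+36*x.1+5) * g x.2 * ((a x.1 : ℚ) * (a x.2 : ℚ)) := by
    intro x _
    have h := a_succ x.1
    push_cast
    linear_combination (g x.2 * (a x.2 : ℚ)) * h
  rw [sum_congr rfl this]
  ring

/-- the convolution -/
def Sq (n : ℕ) : ℚ := M (fun _ _ => 1) n
def Vq (n : ℕ) : ℚ := M (fun i j => (i:ℚ)*j) n

theorem M_i (n : ℕ) : M (fun i _ => (i:ℚ)) n = (n:ℚ)/2 * Sq n := by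
  have h1 := M_swap (fun i _ => (i:ℚ)) n
  have h2 : M (fun i j => 1*(i:ℚ) + 1*(j:ℚ)) n = M (fun i j => (n:ℚ) * 1 + 0 * 1) n := by
    refine M_congr fun i j h => ?_
    have : (i:ℚ) + j = n := by exact_mod_cast h
    linear_combination this
  rw [M_lin (fun i j => (i:ℚ)) (fun i j => (j:ℚ)), M_lin (fun i j => 1) (fun i j => 1)] at h2
  unfold Sq
  linear_combination (1/2) * h2 + (1/2) * h1

theorem M_i2 (n : ℕ) : M (fun i _ => (i:ℚ)^2) n = (n:ℚ)^2/2 * Sq n - Vq n := by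
  have h1 : M (fun i _ => (i:ℚ)^2) n = M (fun i j => (n:ℚ)*(i:ℚ) + (-1) * ((i:ℚ)*j)) n := by
    refine M_congr fun i j h => ?_
    have : (i:ℚ) + j = n := by exact_mod_cast h
    linear_combination (i:ℚ) * this
  rw [h1, M_lin (fun i j => (i:ℚ)) (fun i j => (i:ℚ)*j), M_i]
  unfold Vq
  ring

theorem M_i2j (n : ℕ) : M (fun i j => (i:ℚ)^2*j) n = (n:ℚ)/2 * Vq n := by
  have h1 := M_swap (fun i j => (i:ℚ)^2*j) n
  have h2 : M (fun i j => 1*((i:ℚ)^2*j) + 1*((j:ℚ)^2*i)) n = M (fun i j => (n:ℚ) * ((i:ℚ)*j) + 0 * ((i:ℚ)*j)) n := by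
    refine M_congr fun i j h => ?_
    have : (i:ℚ) + j = n := by exact_mod_cast h
    linear_combination (i:ℚ) * j * this
  rw [M_lin (fun i j => (i:ℚ)^2*j) (fun i j => (j:ℚ)^2*i), M_lin (fun i j => (i:ℚ)*j) (fun i j => (i:ℚ)*j)] at h2
  unfold Vq
  linear_combination (1/2) * h2 + (1/2) * h1

theorem sys1 (n : ℕ) : ((n:ℚ)+1)^2/2 * Sq (n+1) - Vq (n+1) =
    12*(36*((n:ℚ)^2/2 * Sq n - Vq n) + 36*((n:ℚ)/2*Sq n) + 5*Sq n) := by
  have h1 := M_shift (fun _ => 1) n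
  have h2 := M_i2 (n+1)
  have e1 : M (fun i j => (i:ℚ)^2 * (fun _ => (1:ℚ)) j) (n+1) = M (fun i _ => (i:ℚ)^2) (n+1) :=
    M_congr fun i j _ => by ring
  rw [e1, h2] at h1
  have e2 : M (fun i j => 12*(36*(i:ℚ)^2+36*i+5) * (fun _ => (1:ℚ)) j) n =
      M (fun i j => 432 * (fun i j : ℕ => (i:ℚ)^2) i j + 1 * (fun i j : ℕ => 432 * (i:ℚ) + 60 * (1:ℚ)) i j) n :=
    M_congr fun i j _ => by ring
  rw [e2, M_lin, M_lin (fun i j => (i:ℚ)) (fun i j => 1), M_i2, M_i] at h1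
  push_cast at h1
  have h3 : M (fun i j => (1:ℚ)) n = Sq n := rfl
  rw [h3] at h1
  linear_combination h1

theorem sys2 (n : ℕ) : ((n:ℚ)+1)/2 * Vq (n+1) = 12*(36*((n:ℚ)/2 * Vq n) + 36*Vq n + 5*((n:ℚ)/2*Sq n)) := by
  have h1 := M_shift (fun j => (j:ℚ)) n
  rw [M_i2j (n+1)] at h1
  have e2 : M (fun i j => 12*(36*(i:ℚ)^2+36*i+5) * (fun j : ℕ => (j:ℚ)) j) n =
      M (fun i j => 432 * (fun i j : ℕ => (i:ℚ)^2*j) i j + 1 * (fun i j : ℕ => 432 * ((i:ℚ)*j) + 60 * (j:ℚ)) i j) n :=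
    M_congr fun i j _ => by ring
  have e3 : M (fun i j => (j:ℚ)) n = (n:ℚ)/2 * Sq n := by
    rw [M_swap]; exact M_i n
  rw [e2, M_lin, M_lin (fun i j => (i:ℚ)*j) (fun i j => (j:ℚ)), M_i2j, e3] at h1
  push_cast at h1
  have h3 : M (fun i j => (i:ℚ)*j) n = Vq n := rfl
  rw [h3] at h1
  linear_combination h1

theorem Vq_eq (n : ℕ) : 432 * Vq n = ((n:ℚ)+1)^3/2 * Sq (n+1) - (12*((n:ℚ)+1)*(18*(n:ℚ)^2+18*n+5)+60*n) * Sq n := by
  linear_combination (-((n:ℚ)+1)) * sys1 n - 2 * sys2 n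

theorem Sq_rec (n : ℕ) : ((n:ℚ)+2)^3 * Sq (n+2) =
    24*(2*(n:ℚ)+3)*(18*((n:ℚ)+1)^2+18*((n:ℚ)+1)+5) * Sq (n+1) - 20736*((n:ℚ)+1)*(3*(n:ℚ)+1)*(3*(n:ℚ)+5) * Sq n := by
  have h1 := Vq_eq n
  have h2 := Vq_eq (n+1)
  have h3 := sys2 n
  push_cast at h2
  have hn : ((n:ℚ)+1) ≠ 0 := by positivity
  refine mul_left_cancel₀ hn ?_
  linear_combination (-2)*((n:ℚ)+1) * h2 + (1728) * h3 + (864)*((n:ℚ)+2) * h1

/-- the other side -/
def bb (j : ℕ) : ℚ := ((2*j).choose j : ℚ) * (a j : ℚ)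

theorem bb_succ (j : ℕ) : ((j:ℚ)+1)^3 * bb (j+1) = 24*(2*(j:ℚ)+1)*(36*(j:ℚ)^2+36*j+5) * bb j := by
  unfold bb
  have h1 : ((j:ℚ)+1) * ((2*(j+1)).choose (j+1) : ℚ) = 2*(2*(j:ℚ)+1) * ((2*j).choose j : ℚ) := by
    have := Nat.succ_mul_centralBinom_succ j
    unfold Nat.centralBinom at this
    exact_mod_cast this
  have h2 := a_succ j
  linear_combination ((j:ℚ)+1)^2 * (a (j+1) : ℚ) * h1 + 2*(2*(j:ℚ)+1) * ((2*j).choose j : ℚ) * h2

def F (n j : ℕ) : ℚ := if j ≤ n then bb j * (j.choose (n-j) : ℚ) * (-432)^(n-j) else 0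
def Sp (n : ℕ) : ℚ := ∑ j ∈ range (n+1), F n j

/-- the companion -/
def G (n j : ℕ) : ℚ := -((j:ℚ)^3 * bb j) *
  (if j ≤ n + 1 then (-432)^(n+2-j) * (((j-1).choose (n+2-j) : ℚ) + 2 * ((j-1).choose (n+1-j) : ℚ))
    else if j = n+2 then 1 else 0)

theorem ch (j r : ℕ) : ((r:ℚ)+1) * (j.choose (r+1) : ℚ) = ((j:ℚ)-r) * (j.choose r : ℚ) := by
  rcases Nat.lt_or_ge j r with h | h
  · rw [Nat.choose_eq_zero_of_lt h, Nat.choose_eq_zero_of_lt (by omega)]; simp
  · have := Nat.choose_succ_right_eq j r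
    have h2 := congrArg (fun z : ℕ => (z:ℚ)) this
    push_cast [Nat.cast_sub h] at h2
    linear_combination h2

theorem ch' {j : ℕ} (hj : 1 ≤ j) (r : ℕ) : (j:ℚ) * ((j-1).choose r : ℚ) = ((j:ℚ)-r) * (j.choose r : ℚ) := by
  obtain ⟨i, rfl⟩ : ∃ i, j = i+1 := ⟨j-1, by omega⟩
  rw [Nat.add_sub_cancel]
  rcases Nat.lt_or_ge i r with h | h
  · rw [Nat.choose_eq_zero_of_lt h]
    rcases Nat.lt_or_ge (i+1) r with h' | h'
    · rw [Nat.choose_eq_zero_of_lt h']; simp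
    · have : r = i+1 := by omega
      subst this
      push_cast; ring
  · have := Nat.choose_mul_succ_eq i r
    have h2 := congrArg (fun z : ℕ => (z:ℚ)) this
    push_cast [Nat.cast_sub (show r ≤ i+1 by omega)] at h2
    push_cast
    linear_combination h2

theorem cert (n j : ℕ) : ((n:ℚ)+2)^3 * F (n+2) j - 24*(2*(n:ℚ)+3)*(18*((n:ℚ)+1)^2+18*((n:ℚ)+1)+5) * F (n+1) j +
    20736*((n:ℚ)+1)*(3*(n:ℚ)+1)*(3*(n:ℚ)+5) * F n j = G n (j+1) - G n j := by
  rcases Nat.lt_or_ge n j with h | h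
  · rcases Nat.lt_or_ge (n+1) j with h' | h'
    · rcases Nat.lt_or_ge (n+2) j with h'' | h''
      · unfold F G
        rw [if_neg (by omega), if_neg (by omega), if_neg (by omega), if_neg (by omega), if_neg (by omega),
          if_neg (by omega), if_neg (by omega)]
        ring
      · have : j = n+2 := by omega
        subst this
        unfold F G
        rw [if_pos (by omega), if_neg (by omega), if_neg (by omega), if_neg (by omega), if_neg (by omega),
          if_neg (by omega), if_pos rfl, Nat.sub_self]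
        simp only [Nat.choose_zero_right, pow_zero]
        push_cast
        ring
    · have : j = n+1 := by omega
      subst this
      have hb := bb_succ (n+1)
      unfold F G
      rw [if_pos (by omega), if_pos (by omega), if_neg (by omega), if_neg (by omega), if_pos (by omega), if_pos (by omega),
        Nat.sub_self, show n+2-(n+1) = 1 by omega, Nat.add_sub_cancel]
      simp only [Nat.choose_zero_right, pow_zero, Nat.choose_one_right, pow_one]
      push_cast at hb ⊢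
      linear_combination hb
  · obtain ⟨r, rfl⟩ : ∃ r, n = j + r := ⟨n-j, by omega⟩
    have hb := bb_succ j
    unfold F G
    rw [if_pos (by omega), if_pos (by omega), if_pos (by omega), if_pos (by omega), if_pos (by omega),
      show j+r+2-j = r+2 by omega, show j+r+1-j = r+1 by omega, show j+r-j = r by omega,
      show j+r+2-(j+1) = r+1 by omega, show j+r+1-(j+1) = r by omega, Nat.add_sub_cancel]
    have c1 := ch j r
    have c2 := ch j (r+1)
    rcases Nat.eq_zero_or_pos j with h0 | hj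
    · subst h0
      rw [show r+1+1 = r+2 by ring] at c2
      push_cast at c1 c2 hb ⊢
      rcases Nat.eq_zero_or_pos r with hr | hr
      · subst hr
        norm_num [Nat.choose] at *
        linear_combination (-864) * hb
      · rw [Nat.choose_eq_zero_of_lt (show 0 < r by omega), Nat.choose_eq_zero_of_lt (show 0 < r+1 by omega),
          Nat.choose_eq_zero_of_lt (show 0 < r+2 by omega)]
        simp
    · have d1 := ch' hj (r+1)
      have d2 := ch' hj (r+2)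
      rw [show r+1+1 = r+2 by ring] at c2
      push_cast at c1 c2 d1 d2 hb ⊢
      rw [pow_succ (-432:ℚ) (r+1), pow_succ (-432:ℚ) r]
      generalize (-432:ℚ)^r = P at *
      generalize ((j.choose r : ℕ) : ℚ) = u at *
      generalize ((j.choose (r+1) : ℕ) : ℚ) = v at *
      generalize ((j.choose (r+2) : ℕ) : ℚ) = w at *
      generalize (((j-1).choose (r+1) : ℕ) : ℚ) = y1 at *
      generalize (((j-1).choose (r+2) : ℕ) : ℚ) = y2 at *
      generalize bb (j+1) = B1 at *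
      generalize bb j = B0 at *
      generalize (j:ℚ) = J at *
      generalize (r:ℚ) = R at *
      -- certificate
      have key : (J+R+2)^3*w + (2*J+2*R+3)*(J+R+1)*(J+R+2)*v + (J+R+1)*(J+R)*(J+R+2)*u =
          2*(2*J+1)*J*(J+1)*(v+2*u) + J^2*((J-R-2)*w+2*(J-R-1)*v) := by
        linear_combination (4*J^2+3*J*(R+2)+(R+2)^2) * c2 + (7*J^2+4*(R+1)*J+5*J+(R+1)^2+(R+1)) * c1
      have hq : (2*J+2*R+3)*v + 2*(J+R+1)*u = (2*J+1)*(v+2*u) := by linear_combination 2 * c1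
      linear_combination (-432*P) * (v+2*u) * hb - 432^2*P*J^2*B0*(d2 + 2*d1) + 432^2*P*B0*key + 51840*P*B0*hq

theorem Sp_rec (n : ℕ) : ((n:ℚ)+2)^3 * Sp (n+2) =
    24*(2*(n:ℚ)+3)*(18*((n:ℚ)+1)^2+18*((n:ℚ)+1)+5) * Sp (n+1) - 20736*((n:ℚ)+1)*(3*(n:ℚ)+1)*(3*(n:ℚ)+5) * Sp n := by
  have e0 : Sp n = ∑ j ∈ range (n+3), F n j := by
    unfold Sp
    rw [sum_range_succ _ (n+2), sum_range_succ _ (n+1)]
    unfold F
    rw [if_neg (by omega), if_neg (by omega)]
    ring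
  have e1 : Sp (n+1) = ∑ j ∈ range (n+3), F (n+1) j := by
    unfold Sp
    rw [sum_range_succ _ (n+2)]
    unfold F
    rw [if_neg (by omega)]
    ring
  have e2 : Sp (n+2) = ∑ j ∈ range (n+3), F (n+2) j := rfl
  have h : ∑ j ∈ range (n+3), (((n:ℚ)+2)^3 * F (n+2) j - 24*(2*(n:ℚ)+3)*(18*((n:ℚ)+1)^2+18*((n:ℚ)+1)+5) * F (n+1) j +
    20736*((n:ℚ)+1)*(3*(n:ℚ)+1)*(3*(n:ℚ)+5) * F n j) = G n (n+3) - G n 0 := by
    rw [sum_congr rfl fun j _ => cert n j, sum_range_sub]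
  rw [sum_add_distrib, sum_sub_distrib, ← mul_sum, ← mul_sum, ← mul_sum, ← e0, ← e1, ← e2] at h
  have g0 : G n 0 = 0 := by unfold G; simp
  have g3 : G n (n+3) = 0 := by
    unfold G
    rw [if_neg (by omega), if_neg (by omega), mul_zero]
  rw [g0, g3] at h
  linear_combination h

theorem S_eq (n : ℕ) : Sq n = Sp n := by
  induction n using Nat.twoStepInduction with
  | zero =>
    unfold Sq M Sp F bb a
    simp
  | one =>
    unfold Sq M Sp F bb a
    simp [sum_range_succ, Nat.choose, Nat.antidiagonal_succ]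
    norm_num
  | more n h1 h2 =>
    have r1 := Sq_rec n
    have r2 := Sp_rec n
    rw [h1, h2] at r1
    have hn : ((n:ℚ)+2)^3 ≠ 0 := by positivity
    refine mul_left_cancel₀ hn ?_
    rw [r1, ← r2]

end Pool.Agent.N926.Cb
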